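import Pool.Agent.Y808.LB.Stm

/-!
The local ring of `V[X_0,...,X_r]/(X_0 ⋯ X_r - π)` at the origin.
-/

set_option autoImplicit false

open Polynomial IsLocalRing BQ Pool.Agent.H40.BP Pool.Agent.W394.BQN

noncomputable section

namespace Pool.Agent.Y448.LB

open Pool.Agent.Y808.LB

/-- modulo the variables a polynomial is its constant coefficient -/
theorem sub_const {V : Type} [CommRing V] (π : V) (n : ℕ) (f : MvPolynomial (Fin (n + 1)) V) :
    Q.pr V π n f - Q.pr V π n (MvPolynomial.C (MvPolynomial.constantCoeff f)) ∈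
      Ideal.span (Set.range fun i => Q.pr V π n (MvPolynomial.X i)) := by
  induction f using MvPolynomial.induction_on with
  | C a => simp
  | add f g hf hg =>
    have := Ideal.add_mem _ hf hg
    have e : Q.pr V π n (f + g) -
        Q.pr V π n (MvPolynomial.C (MvPolynomial.constantCoeff (f + g))) =
      (Q.pr V π n f - Q.pr V π n (MvPolynomial.C (MvPolynomial.constantCoeff f))) +
      (Q.pr V π n g - Q.pr V π n (MvPolynomial.C (MvPolynomial.constantCoeff g))) := by
      simp only [map_add]; ring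
    rw [e]
    exact this
  | mul_X f i hf =>
    simp only [map_mul, MvPolynomial.constantCoeff_X, mul_zero, map_zero, sub_zero]
    exact Ideal.mul_mem_left _ _ (Ideal.subset_span ⟨i, rfl⟩)

theorem t_SEMI : Pool.Agent.Y808.LB.S_SEMI := by
  intro V _ _ _ _ π hπ B _ _ j r x hx hprod
  have hdom : IsDomain (Semi V π r) := by
    have h1 := semi_domain V π hπ r 0
    exact MulEquiv.isDomain (SemiPoly V π r 0)
      ((MvPolynomial.isEmptyRingEquiv (Semi V π r) (Fin 0)).symm.trans
        (SemiPoly.equiv V π r 0)).toMulEquiv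
  have hπm : π ∈ maximalIdeal V := hπ.not_isUnit
  have hmax : maximalIdeal V = Ideal.span {π} :=
    (IsLocalRing.eq_maximalIdeal
      (PrincipalIdealRing.isMaximal_of_irreducible hπ.irreducible)).symm
  have hρ : ∏ _i : Fin (r + 1), (0 : ResidueField V) = residue V π := by
    rw [(residue_eq_zero_iff π).2 hπm]
    exact Finset.prod_eq_zero (Finset.mem_univ 0) rfl
  let ρ : Semi V π r →+* ResidueField V := Q.lft V π r (residue V) (fun _ => 0) hρ
  let xx : Fin (r + 1) → Semi V π r := fun i => Q.pr V π r (MvPolynomial.X i)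
  let cc : V →+* Semi V π r := (Q.pr V π r).comp MvPolynomial.C
  have ρx : ∀ i, ρ (xx i) = 0 := fun i => Q.lft_X V π r _ _ hρ i
  have ρc : ∀ v, ρ (cc v) = residue V v := fun v => Q.lft_C V π r _ _ hρ v
  have hxc : ∏ i, xx i = cc π := Q.pr_prod V π r
  let I : Ideal (Semi V π r) := Ideal.span (Set.range xx)
  have hI : ∀ s : Semi V π r, ∃ v : V, s - cc v ∈ I := by
    intro s
    obtain ⟨f, rfl⟩ : ∃ f, Q.pr V π r f = s := Ideal.Quotient.mk_surjective s
    exact ⟨MvPolynomial.constantCoeff f, sub_const π r f⟩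
  let q : Ideal (Semi V π r) := RingHom.ker ρ
  have hqp : q.IsPrime := RingHom.ker_isPrime ρ
  have hIq : I ≤ q := by
    refine Ideal.span_le.2 ?_
    rintro _ ⟨i, rfl⟩
    exact ρx i
  have hxI : ∀ i, xx i ∈ I := fun i => Ideal.subset_span ⟨i, rfl⟩
  have hqI : q = I := by
    refine le_antisymm (fun s hs => ?_) hIq
    obtain ⟨v, hv⟩ := hI s
    have h1 : ρ (cc v) = 0 := by
      have h2 : ρ (s - cc v) = 0 := hIq hv
      have h3 : ρ s = 0 := hs
      rw [map_sub, h3, zero_sub, neg_eq_zero] at h2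
      exact h2
    rw [ρc, residue_eq_zero_iff, hmax, Ideal.mem_span_singleton] at h1
    obtain ⟨w, rfl⟩ := h1
    have h4 : cc (π * w) ∈ I := by
      rw [map_mul, ← hxc]
      refine Ideal.mul_mem_right _ _ ?_
      exact Ideal.mem_of_dvd _ (Finset.dvd_prod_of_mem xx (Finset.mem_univ (0 : Fin (r + 1))))
        (hxI 0)
    have h5 := Ideal.add_mem _ hv h4
    rwa [sub_add_cancel] at h5
  -- elements outside `q`
  have hout : ∀ s : Semi V π r, s ∉ q → ∀ v : V, s - cc v ∈ I → IsUnit v := by
    intro s hs v hv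
    by_contra hvu
    apply hs
    have h1 : ρ (cc v) = 0 := by
      rw [ρc, residue_eq_zero_iff]
      exact hvu
    have h2 : ρ (s - cc v) = 0 := hIq hv
    rw [map_sub, h1, sub_zero] at h2
    exact h2
  let φ₀ : Semi V π r →+* B := Q.lft V π r j x hprod
  have φx : ∀ i, φ₀ (xx i) = x i := fun i => Q.lft_X V π r _ _ hprod i
  have φc : ∀ v, φ₀ (cc v) = j v := fun v => Q.lft_C V π r _ _ hprod v
  have hφI : ∀ s ∈ I, φ₀ s ∈ maximalIdeal B := by
    have h1 : I ≤ (maximalIdeal B).comap φ₀ := by
      refine Ideal.span_le.2 ?_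
      rintro _ ⟨i, rfl⟩
      show φ₀ (xx i) ∈ maximalIdeal B
      rw [φx]
      exact hx i
    exact fun s hs => h1 hs
  have hφu : ∀ s : q.primeCompl, IsUnit (φ₀ s) := by
    intro s
    obtain ⟨v, hv⟩ := hI s
    have h1 := hout s s.2 v hv
    have h2 := hφI _ hv
    rw [map_sub, φc] at h2
    by_contra hn
    have h3 : φ₀ s ∈ maximalIdeal B := hn
    have h4 := Ideal.sub_mem _ h3 h2
    rw [sub_sub_cancel] at h4
    exact h4 (h1.map j)
  let R := Localization.AtPrime q
  let al : Semi V π r →+* R := algebraMap (Semi V π r) R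
  let φ : R →+* B := IsLocalization.lift (M := q.primeCompl) hφu
  have hφal : ∀ s, φ (al s) = φ₀ s := fun s => IsLocalization.lift_eq hφu s
  have hm : maximalIdeal R = Ideal.span (Set.range fun i => al (xx i)) := by
    have h1 : Ideal.map al q = Ideal.map al I := congrArg (Ideal.map al) hqI
    rw [← Localization.AtPrime.map_eq_maximalIdeal (I := q)]
    refine h1.trans ?_
    rw [Ideal.map_span, ← Set.range_comp]
    rfl
  have hR1 : IsDomain R :=
    IsLocalization.isDomain_localization (Ideal.primeCompl_le_nonZeroDivisors q)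
  have hR2 : IsNoetherianRing R := IsLocalization.isNoetherianRing q.primeCompl _ inferInstance
  have hφm : ∀ y ∈ maximalIdeal R, φ y ∈ maximalIdeal B := by
    have h1 : maximalIdeal R ≤ (maximalIdeal B).comap φ := by
      rw [hm]
      refine Ideal.span_le.2 ?_
      rintro _ ⟨i, rfl⟩
      show φ (al (xx i)) ∈ maximalIdeal B
      rw [hφal, φx]
      exact hx i
    exact fun y hy => h1 hy
  refine ⟨R, inferInstance, hR1, hR2, inferInstance, al.comp cc, φ, fun i => al (xx i),
    fun m => roitman q m (idemFree_mv_semi V π hπ r m), ⟨fun y hy => ?_⟩, hm,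
    fun l => by rw [hφal, φx], fun v => by rw [RingHom.comp_apply, hφal, φc], fun y => ?_⟩
  · by_contra hn
    exact hφm y hn hy
  · obtain ⟨f, g, rfl⟩ := IsLocalization.exists_mk'_eq q.primeCompl y
    obtain ⟨v, hv⟩ := hI f
    obtain ⟨u, hu⟩ := hI g
    obtain ⟨u, rfl⟩ := hout g g.2 u hu
    refine ⟨v * ↑u⁻¹, ?_⟩
    have h1 : f - g * cc (v * ↑u⁻¹) ∈ I := by
      have h2 : cc (u : V) * cc (v * ↑u⁻¹) = cc v := by
        rw [← map_mul]
        congr 1
        rw [mul_comm, mul_assoc, Units.inv_mul, mul_one]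
      have h3 : f - g * cc (v * ↑u⁻¹) = (f - cc v) - (g - cc (u : V)) * cc (v * ↑u⁻¹) := by
        rw [← h2]; ring
      rw [h3]
      exact Ideal.sub_mem _ hv (Ideal.mul_mem_right _ _ hu)
    have h4 : al (f - g * cc (v * ↑u⁻¹)) ∈ maximalIdeal R := by
      rw [hm]
      have h5 := Ideal.mem_map_of_mem al h1
      rw [Ideal.map_span, ← Set.range_comp] at h5
      exact h5
    have h6 : al (f - g * cc (v * ↑u⁻¹)) =
        al g * (IsLocalization.mk' R f g - (al.comp cc) (v * ↑u⁻¹)) := by
      have h7 : al g * IsLocalization.mk' R f g = al f := IsLocalization.mk'_spec' R f g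
      refine Eq.trans ?_ (mul_sub (al g) (IsLocalization.mk' R f g : R) _).symm
      refine Eq.trans (map_sub al _ _) ?_
      refine congrArg₂ _ h7.symm (map_mul al _ _)
    rw [h6] at h4
    rcases (maximalIdeal.isMaximal R).isPrime.mem_or_mem h4 with h7 | h7
    · exact absurd (IsLocalization.map_units R g) h7
    · exact h7

end Pool.Agent.Y448.LB
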